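import Mathlib
import Pool.Agent.J6H8.FC.Final

/-!
# Lehmer's problem when the complex conjugation has few conjugates

Let `f` be an irreducible integer polynomial of degree `n` with `M(f) > 1` and leading coefficient
`1` or `-1` (otherwise `M(f) ≥ 2`), and put `B(t) = exp (c n / (t log (2 t)) ^ 2)`, with an absolute
constant `c > 0`.

* Let `E / ℚ` be a finite Galois extension in `ℂ`, and let `D` be the number of the conjugates of the
  complex conjugation in `Gal(E/ℚ)` (`D = 1` if and only if `E` is totally real or a CM field). If `f`
  has a zero in `E`, then `M(f) ≥ B(D)`: every algebraic integer of `E` which is neither `0` nor a root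
  of unity has an absolute logarithmic height of at least `c / (D log (2 D)) ^ 2`.
* Let the zeros of `f` have degree `m` over `E`, and let `V` be the number of the zeros of `f` which are
  not on the unit circle. Then `M(f) ≥ B(n m D / V)`. So if for example `α` has degree `m` over some
  totally real field or CM field, and a proportion `ε` of its conjugates is not on the unit circle, then
  the height of `α` is at least `c (ε / m) ^ 2 / (log (2 m / ε)) ^ 2`.
* If `f` has `R > 0` real zeros, then `M(f) ≥ B(n / R)`.

In particular Lehmer's conjecture is true, with the constant `e`, for `f` of degree `n` if the complex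
conjugation has at most `c' √n / log (2 n)` conjugates in the Galois group of `f`; it is true also if the
zeros of `f` have degree `m ≤ c' (V / n) √n / log (2 n)` over a totally real field or a CM field.

The case `D = 1`, `f` with a zero in `E`, is a theorem of Schinzel. The method: the numbers
`γ = α β` with `β` a conjugate of `α`, for which many conjugates `σ(α) σ(β)` are absolute squares
`|σ(α)| ^ 2` (found by a double counting argument in the Galois group), an energy inequality for
the conjugates of `γ, γ ^ 2, ..., γ ^ k` with many positive real elements if the degree of `γ` is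
large, and the method of Dobrowolski if it is small.
-/

set_option autoImplicit false

open Polynomial

namespace Pool.Agent.Results.MP_dc0c68_nt.FewConjugations

/-- the complex conjugation on a subfield `E` of `ℂ` which is normal over `ℚ` -/
noncomputable def conjOn (E : IntermediateField ℚ ℂ) [Normal ℚ E] : E ≃ₐ[ℚ] E :=
  AlgEquiv.restrictNormal (Complex.conjAe.restrictScalars ℚ) E

/-- `D`: the number of the conjugates of the complex conjugation in the Galois group of `E` -/
noncomputable def conjNum (E : IntermediateField ℚ ℂ) [Normal ℚ E] : ℕ :=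
  Nat.card {τ : E ≃ₐ[ℚ] E // IsConj (conjOn E) τ}

open Classical in
/-- `V`: the number of the complex zeros of `f` off the unit circle -/
noncomputable def offCircle (f : ℤ[X]) : ℕ :=
  Multiset.card ((f.map (Int.castRingHom ℂ)).roots.filter fun z => ‖z‖ ≠ 1)

open Classical in
/-- `R`: the number of the real zeros of `f` -/
noncomputable def realZeros (f : ℤ[X]) : ℕ :=
  Multiset.card ((f.map (Int.castRingHom ℂ)).roots.filter fun z => z.im = 0)

/-- the bound `B(t)` -/
noncomputable def bound (c : ℝ) (n : ℕ) (t : ℝ) : ℝ :=
  Real.exp (c * n / (t * Real.log (2 * t)) ^ 2)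

/-- the statement for `f` -/
def Holds (c : ℝ) (f : ℤ[X]) : Prop :=
  (∀ (E : IntermediateField ℚ ℂ) [FiniteDimensional ℚ E] [IsGalois ℚ E] (α : ℂ),
    aeval α f = 0 →
      (α ∈ E → bound c f.natDegree (conjNum E) ≤
        (f.map (Int.castRingHom ℂ)).mahlerMeasure) ∧
      0 < offCircle f ∧
      bound c f.natDegree (f.natDegree * (minpoly E α).natDegree * conjNum E / offCircle f) ≤
        (f.map (Int.castRingHom ℂ)).mahlerMeasure) ∧
  (0 < realZeros f → bound c f.natDegree (f.natDegree / realZeros f) ≤
    (f.map (Int.castRingHom ℂ)).mahlerMeasure)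

open Pool.Agent.J6H8.FC Pool.Agent.H389R3.LR in
lemma monic_case : ∃ c : ℝ, 0 < c ∧ ∀ f : ℤ[X], Irreducible f → f.Monic →
    1 < (f.map (Int.castRingHom ℂ)).mahlerMeasure → Holds c f := by
  classical
  obtain ⟨c1, hc1, H1⟩ := Pool.Agent.J6H8.FC.final
  obtain ⟨c2, hc2, H2⟩ := real_zeros
  refine ⟨min c1 c2, lt_min hc1 hc2, ?_⟩
  intro f hf hm hM
  have hM0 : 0 < (f.map (Int.castRingHom ℂ)).mahlerMeasure := by linarith
  have key : ∀ c t : ℝ, min c1 c2 ≤ c →
      c * (f.natDegree / (t * Real.log (2 * t)) ^ 2) ≤
        Real.log (f.map (Int.castRingHom ℂ)).mahlerMeasure →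
      bound (min c1 c2) f.natDegree t ≤ (f.map (Int.castRingHom ℂ)).mahlerMeasure := by
    intro c t hc h
    unfold bound
    rw [← Real.le_log_iff_exp_le hM0]
    refine le_trans ?_ h
    rw [mul_div_assoc]
    exact mul_le_mul_of_nonneg_right hc (by positivity)
  constructor
  · intro E _ _ α hα
    obtain ⟨h1, h2⟩ := H1 f hf hm hM E α hα
    refine ⟨fun hE => key c1 _ (min_le_left _ _) (h2 hE), ?_,
      key c1 _ (min_le_left _ _) (h1 _ rfl)⟩
    -- there is a zero off the unit circle
    by_contra hcon
    have hV : offCircle f = 0 := by omega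
    unfold offCircle at hV
    rw [Multiset.card_eq_zero, Multiset.filter_eq_nil] at hV
    have hmC : (f.map (Int.castRingHom ℂ)).Monic := hm.map _
    have h3 : (f.map (Int.castRingHom ℂ)).mahlerMeasure = 1 := by
      rw [mahlerMeasure_eq_leadingCoeff_mul_prod_roots, hmC.leadingCoeff, norm_one, one_mul]
      apply Multiset.prod_eq_one
      intro y hy
      rw [Multiset.mem_map] at hy
      obtain ⟨z, hz, rfl⟩ := hy
      have := hV z hz
      push Not at this
      rw [this, max_self]
    linarith
  · intro hR
    have h1 : lineRoots f 1 = realZeros f := by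
      unfold lineRoots realZeros
      simp only [pow_one]
    have hR' : (0:ℝ) < realZeros f := by exact_mod_cast hR
    have hle : realZeros f ≤ f.natDegree := by
      unfold realZeros
      refine (Multiset.card_le_card (Multiset.filter_le _ _)).trans ?_
      exact (Polynomial.card_roots' _).trans natDegree_map_le
    refine key c2 _ (min_le_right _ _) (H2 f hf hm hM _ ?_ ?_)
    · rw [le_div_iff₀ hR', one_mul]
      exact_mod_cast hle
    · rw [h1, div_mul_cancel₀ _ hR'.ne']

/-- **Lehmer's problem when the complex conjugation has few conjugates.** -/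
theorem result : ∃ c : ℝ, 0 < c ∧ ∀ f : ℤ[X], Irreducible f →
    1 < (f.map (Int.castRingHom ℂ)).mahlerMeasure →
    2 ≤ |f.leadingCoeff| ∨ Holds c f := by
  obtain ⟨c, hc, H⟩ := monic_case
  refine ⟨c, hc, ?_⟩
  intro f hf hM
  have hl0 : f.leadingCoeff ≠ 0 := leadingCoeff_ne_zero.mpr hf.ne_zero
  have habs := Int.one_le_abs hl0
  rcases lt_or_eq_of_le habs with h1 | h1
  · left; omega
  right
  rcases (abs_eq (zero_le_one' ℤ)).mp h1.symm with h2 | h2
  · exact H f hf h2 hM
  · have hneg : (-f).map (Int.castRingHom ℂ) = - (f.map (Int.castRingHom ℂ)) := by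
      rw [Polynomial.map_neg]
    have hMneg := Pool.Agent.H389R3.LR.MM_neg' f
    have h3 := H (-f)
      ((Associated.irreducible_iff (Associated.neg_left (Associated.refl f))).mpr hf)
      (by rw [Monic, leadingCoeff_neg, h2]; rfl) (by rw [hMneg]; exact hM)
    have e1 : offCircle (-f) = offCircle f := by
      unfold offCircle; rw [hneg, roots_neg]
    have e2 : realZeros (-f) = realZeros f := by
      unfold realZeros; rw [hneg, roots_neg]
    unfold Holds at h3 ⊢
    rw [hMneg, e1, e2, natDegree_neg] at h3
    refine ⟨fun E _ _ α hα => ?_, h3.2⟩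
    exact h3.1 E α (by rw [map_neg, hα, neg_zero])

end Pool.Agent.Results.MP_dc0c68_nt.FewConjugations
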