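import Mathlib
import Pool.Agent.J6H31.LM.Ext

/-!
# Lehmer's problem for polynomials with lacunary factors modulo a prime

For all `N` and `θ > 0` there is `c = c(N, θ) > 0` with the following property. Let `f` be an integer
polynomial none of whose zeros is `0` or a root of unity. If for some prime `p` and some nonzero
polynomial `T` with at most `N` nonzero coefficients, over any field of characteristic `p`, at least
`θ deg f` of the zeros of `f` modulo `p` (with multiplicity) are zeros of `T`, then
`log M(f) ≥ c * deg f / deg T`.

For instance: `M(f) ≥ exp c(N)` if, for some prime `p`, `f` has at most `N` coefficients which are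
not divisible by `p`; more generally if a nonzero multiple of `f` modulo `p` of degree at most
`C deg f` has at most `N` nonzero coefficients (with a constant depending on `N` and `C`). So
Lehmer's inequality `M(f) ≥ c > 1` holds for all these `f`, uniformly in `p`. For `N = 2` and
`T = X ^ n - 1` these are the polynomials which were studied by Borwein, Dobrowolski and
Mossinghoff; there is no condition on `f` besides the one on its reduction.

Method: let `E` be the set of the exponents of `T`. The number of the sums of `n` elements of `E`
grows at most like a power of `n`. So by the pigeonhole principle there is a nonzero integer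
polynomial `G` in the `r`-th power of the ideal `(p, T)` whose exponents are such sums and whose
coefficients are smaller than `p ^ (ε r)`. If `f` is irreducible and does not divide `G` then the
resultant of `f` and `G` is divisible by `p ^ (r θ deg f)` and this gives the bound. If `f` divides
`G` then `f` divides a polynomial with boundedly many terms; one repeats the argument with the prime
`2` and gets in addition bounded coefficients. Then there is an integer `m`, all of whose prime
factors are large, such that `f` does not divide `G(X ^ m)` (Vandermonde determinant), and Fermat's
congruence gives a resultant divisible by `ℓ ^ deg f` for a large prime `ℓ`. Extension fields of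
`ZMod p` are treated by comparing `T` with its conjugates.

The case `K = ZMod p` was proved before, by the same method, in the starting file
`Results/MP_7ab245_nt/SparseModP.lean`; new here is the extension to arbitrary fields of
characteristic `p`.
-/

set_option autoImplicit false

open Polynomial

namespace Pool.Agent.Results.MP_dc0c68_nt.LacunaryModP

universe u

/-- The Mahler measure of an integer polynomial. -/
noncomputable def M (f : ℤ[X]) : ℝ := (f.map (Int.castRingHom ℂ)).mahlerMeasure

/-- **Integer polynomials sharing many zeros with a lacunary polynomial modulo a prime.** -/
theorem result (N : ℕ) (θ : ℝ) (hθ : 0 < θ) :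
    ∃ c : ℝ, 0 < c ∧ ∀ (p : ℕ) [Fact p.Prime] (K : Type u) [Field K] [CharP K p]
      (f : ℤ[X]) (H T : K[X]),
      (∀ z : ℂ, aeval z f = 0 → z ≠ 0 ∧ ∀ n : ℕ, 0 < n → z ^ n ≠ 1) →
      T ≠ 0 → T.support.card ≤ N → H ∣ T → H ∣ f.map (Int.castRingHom K) →
      θ * f.natDegree ≤ H.natDegree →
      c * f.natDegree ≤ T.natDegree * Real.log (M f) := by
  obtain ⟨c, hc, h⟩ := Pool.Agent.J6H31.LM.mainExt.{u} N θ hθ
  refine ⟨c, hc, ?_⟩
  intro p _ K _ _ f H T hf hT hTN hHT hHf hd
  refine h p K f H T ?_ hT hTN hHT hHf hd
  intro z hz
  apply hf z
  rw [Polynomial.aeval_def, ← Polynomial.eval_map]
  exact hz

end Pool.Agent.Results.MP_dc0c68_nt.LacunaryModP
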