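import Mathlib
import Pool.Agent.J6H8.FR.Ram
import Pool.Agent.TH53.SL5
import Pool.Agent.H389R3.LR6

/-!
# Lehmer's problem when a Frobenius element has few conjugates

Let `f` be an irreducible integer polynomial of degree `n` with `M(f) > 1` and leading coefficient
`1` or `-1` (otherwise `M(f) ≥ 2`), with a zero `α` in the finite Galois extension `K / ℚ` (in `ℂ`).
Let `E` be a subfield of `K` which is Galois over `ℚ`, and `m = [E(α) : E]`. Let `P` be a prime ideal
of the integers of `K` over the prime number `p`, with ramification index `e`, and let `τ`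
be an element of the Galois group of `K` with `τ(x) ≡ x ^ q mod P`, `q = p ^ k`, `k ≥ 1` (a power of
a Frobenius element), whose restriction to `E` has `D` conjugates in the Galois group of `E`. Put
`w = 2 e`, or `w = 1` if no conjugate `β ≠ α` of `α` over `E` has `β ^ (p ^ r) = α ^ (p ^ r)` for some
`r` (for instance if `α` is in `E`). Put `N(J) = J (J + 1) (k (J - 1) + 3) / 6`. Then for all `J ≥ 1`

`T n log p ≤ D (n (J + 1) / 2 · log (m (J + 1)) + w (m (J + 1) - 1) (1 + q + ... + q ^ J) log M(f))`,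

for `T = N(J) / e` and for `T = N(J - u)` if `u ≤ J` and `e ≤ q ^ u`.
Hence `M(f) ≥ (m (J + 1)) ^ (n / (4 w m q ^ J))` if `D (J + 1) log (m (J + 1)) ≤ T log p`,
and `M(f)` is greater than the Mahler measure of Lehmer's polynomial if in addition `w m q ^ J ≤ n`.
In particular `M(f)` is greater than the Mahler measure of Lehmer's polynomial if `m ^ 2 ≤ n`,
`(2 e) ^ 16 ≤ n`, `p ^ (32 k) ≤ n` and `1152 k D log p log (m log n) ≤ (log n) ^ 2`.

The method: the product `W` of all the differences of the numbers `τ ^ i (y) ^ (q ^ (J - i))`,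
`0 ≤ i ≤ J`, `y` a conjugate of `α` over `E`, is divisible by a high power of `P`. The automorphisms
`σ` which commute with `τ` on `E` give the same power of `P` for `σ(W)`, since `σ τ ^ i` is
`τ ^ i σ` times an automorphism over `E`, which permutes the `y`, and Hadamard's inequality bounds
all the numbers `|σ(W)|`. If some of the `y` have quotients of `p`-power order, the method is applied
to a power of `α` with an exponent `p ^ s ≤ 2 e`: the field `K` contains at most `2 e` roots of unity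
of `p`-power order.
-/

set_option autoImplicit false

open Polynomial Finset NumberField

namespace Pool.Agent.Results.MP_dc0c68_nt.SmallFrobeniusClasses

/-- `M(f)`: the Mahler measure of `f` -/
noncomputable def M (f : ℤ[X]) : ℝ := (f.map (Int.castRingHom ℂ)).mahlerMeasure

/-- `L`: Lehmer's polynomial -/
noncomputable def L : ℤ[X] := X ^ 10 + X ^ 9 - X ^ 7 - X ^ 6 - X ^ 5 - X ^ 4 - X ^ 3 + X + 1

/-- `τ` is the `k`-th power of a Frobenius element at `P`: `τ(x) ≡ x ^ (p ^ k) mod P` for all the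
algebraic integers `x` of `K` -/
def IsFrobPow {K : IntermediateField ℚ ℂ} (p : ℕ) (P : Ideal (𝓞 K)) (k : ℕ) (τ : K ≃ₐ[ℚ] K) : Prop :=
  ∀ x y : 𝓞 K, (y : K) = τ x - (x : K) ^ (p ^ k) → y ∈ P

/-- `D`: the number of the conjugates of `τ` in the Galois group of `E` -/
noncomputable def classNum {E : IntermediateField ℚ ℂ} (τ : E ≃ₐ[ℚ] E) : ℕ :=
  Nat.card {ρ : E ≃ₐ[ℚ] E // IsConj τ ρ}

/-- no conjugate `β ≠ α` of `α` over `E` has `β ^ (p ^ r) = α ^ (p ^ r)` for some `r` -/
def NoRatio (p : ℕ) (E : IntermediateField ℚ ℂ) (α : ℂ) : Prop :=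
  ∀ (β : ℂ) (r : ℕ), aeval β (minpoly E α) = 0 → β ^ (p ^ r) = α ^ (p ^ r) → β = α

/-- `N(J) = J (J + 1) (k (J - 1) + 3) / 6` -/
noncomputable def N (k J : ℕ) : ℝ := (J : ℝ) * (J + 1) * (k * (J - 1) + 3) / 6

/-- the three bounds (1), (2) -/
def Bounds (f : ℤ[X]) (p k D m w J : ℕ) (T : ℝ) : Prop :=
  (T * (f.natDegree * Real.log p) ≤
    D * (f.natDegree * ((J + 1) / 2 * Real.log (m * (J + 1))) +
      w * (m * (J + 1) - 1) * (∑ i ∈ range (J + 1), (p : ℝ) ^ (k * i)) * Real.log (M f))) ∧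
  (D * ((J + 1) * Real.log (m * (J + 1))) ≤ T * Real.log p →
    ((m : ℝ) * (J + 1)) ^ ((f.natDegree : ℝ) / (4 * w * m * p ^ (k * J))) ≤ M f ∧
    (w * m * p ^ (k * J) ≤ f.natDegree → M L < M f))

/-- the possible values of `T` -/
def IsT (p k e J : ℕ) (T : ℝ) : Prop :=
  T = N k J / e ∨ ∃ u : ℕ, u ≤ J ∧ e ≤ p ^ (k * u) ∧ T = N k (J - u)

/-- (3): the explicit condition for Lehmer's bound -/
def Explicit (f : ℤ[X]) (p k e D m : ℕ) : Prop :=
  m ^ 2 ≤ f.natDegree → (2 * e) ^ 16 ≤ f.natDegree → p ^ (32 * k) ≤ f.natDegree →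
    1152 * k * D * Real.log p * Real.log (m * Real.log f.natDegree) ≤
      Real.log f.natDegree ^ 2 → M L < M f

lemma sum_le (q : ℝ) (hq : 2 ≤ q) (J : ℕ) : ∑ i ∈ range (J + 1), q ^ i ≤ 2 * q ^ J := by
  induction J with
  | zero => simp
  | succ J ih =>
    rw [Finset.sum_range_succ]
    have h1 : 0 ≤ (q - 2) * q ^ J := mul_nonneg (by linarith) (by positivity)
    rw [pow_succ]
    nlinarith

lemma lehmer_log : M L < (2 : ℝ) ^ ((1 : ℝ) / 4) := Pool.Agent.TH53.SL.lehmer_lt'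

/-- the second and the third bound -/
lemma derive (f : ℤ[X]) (hM : 1 < M f) (p k D m w J : ℕ) (T : ℝ) (hp : 2 ≤ p) (hk : 1 ≤ k)
    (hD : 1 ≤ D) (hm : 1 ≤ m) (hw : 1 ≤ w) (hJ : 1 ≤ J)
    (hA : T * (f.natDegree * Real.log p) ≤
    D * (f.natDegree * ((J + 1) / 2 * Real.log (m * (J + 1))) +
      w * (m * (J + 1) - 1) * (∑ i ∈ range (J + 1), (p : ℝ) ^ (k * i)) * Real.log (M f))) :
    Bounds f p k D m w J T := by
  refine ⟨hA, fun hB => ?_⟩
  have hM0 : 0 < M f := by linarith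
  set n : ℝ := (f.natDegree : ℝ) with hn
  have hn0 : 0 ≤ n := Nat.cast_nonneg _
  set l := Real.log ((m : ℝ) * (J + 1)) with hl
  set b := Real.log (M f) with hb
  have hb0 : 0 < b := Real.log_pos hM
  have hm1 : (1 : ℝ) ≤ m := by exact_mod_cast hm
  have hw1 : (1 : ℝ) ≤ w := by exact_mod_cast hw
  set q : ℝ := (p : ℝ) ^ k with hq
  have hp2 : (2 : ℝ) ≤ p := by exact_mod_cast hp
  have hq2 : 2 ≤ q := by
    rw [hq]
    calc (2 : ℝ) ≤ p := hp2
      _ = (p : ℝ) ^ 1 := (pow_one _).symm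
      _ ≤ (p : ℝ) ^ k := pow_le_pow_right₀ (by linarith) hk
  have hS : ∑ i ∈ range (J + 1), (p : ℝ) ^ (k * i) ≤ 2 * q ^ J := by
    have h1 : ∑ i ∈ range (J + 1), (p : ℝ) ^ (k * i) = ∑ i ∈ range (J + 1), q ^ i := by
      refine Finset.sum_congr rfl fun i _ => ?_
      rw [hq, pow_mul]
    rw [h1]
    exact sum_le q hq2 J
  have hJr : (1 : ℝ) ≤ J := by exact_mod_cast hJ
  have hDr : (0 : ℝ) < D := by exact_mod_cast hD
  have hqJ : 0 < q ^ J := by positivity
  have hmJ : 2 ≤ (m : ℝ) * (J + 1) := by nlinarith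
  -- the main computation
  have h1 : D * (n * ((J + 1) * l)) ≤ T * (n * Real.log p) := by
    have h2 := mul_le_mul_of_nonneg_left hB hn0
    calc D * (n * ((J + 1) * l)) = n * (D * ((J + 1) * l)) := by ring
      _ ≤ _ := h2
      _ = _ := by ring
  have h2 : n * ((J + 1) * l) ≤ n * ((J + 1) / 2 * l) +
      w * (m * (J + 1) - 1) * (∑ i ∈ range (J + 1), (p : ℝ) ^ (k * i)) * b :=
    le_of_mul_le_mul_left (h1.trans hA) hDr
  have h3 : w * (m * (J + 1) - 1) * (∑ i ∈ range (J + 1), (p : ℝ) ^ (k * i)) * b ≤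
      (w * (m * (J + 1))) * (2 * q ^ J) * b := by
    have h4 : (w : ℝ) * (m * (J + 1) - 1) * (∑ i ∈ range (J + 1), (p : ℝ) ^ (k * i)) ≤
        (w * (m * (J + 1))) * (2 * q ^ J) := by
      refine mul_le_mul ?_ hS ?_ (by positivity)
      · exact mul_le_mul_of_nonneg_left (by linarith) (by linarith)
      · positivity
    exact mul_le_mul_of_nonneg_right h4 hb0.le
  have h5 : (J + 1 : ℝ) * (n * l) ≤ (J + 1) * (4 * w * m * q ^ J * b) := by
    have h51 : (J + 1 : ℝ) * (n * l) = 2 * (n * ((J + 1) * l) - n * ((J + 1) / 2 * l)) := by ring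
    have h52 : (J + 1 : ℝ) * (4 * w * m * q ^ J * b) =
        2 * ((w * (m * (J + 1))) * (2 * q ^ J) * b) := by ring
    rw [h51, h52]
    linarith
  have h6 : n * l ≤ 4 * w * m * q ^ J * b := le_of_mul_le_mul_left h5 (by positivity)
  have hqk : (p : ℝ) ^ (k * J) = q ^ J := by rw [hq, pow_mul]
  have hB1 : ((m : ℝ) * (J + 1)) ^ (n / (4 * w * m * p ^ (k * J))) ≤ M f := by
    rw [hqk, ← Real.log_le_log_iff (by positivity) hM0, Real.log_rpow (by positivity),
      div_mul_eq_mul_div, div_le_iff₀ (by positivity)]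
    linarith
  refine ⟨hB1, fun hC => ?_⟩
  refine lehmer_log.trans_le (le_trans ?_ hB1)
  have h7 : (1 : ℝ) / 4 ≤ n / (4 * w * m * p ^ (k * J)) := by
    have h8 : (w : ℝ) * m * ((p : ℝ) ^ (k * J)) ≤ n := by rw [hn]; exact_mod_cast hC
    rw [div_le_div_iff₀ (by norm_num) (by positivity)]
    linarith
  calc (2 : ℝ) ^ ((1 : ℝ) / 4) ≤ (2 : ℝ) ^ (n / (4 * w * m * p ^ (k * J))) :=
        Real.rpow_le_rpow_of_exponent_le (by norm_num) h7
    _ ≤ ((m : ℝ) * (J + 1)) ^ (n / (4 * w * m * p ^ (k * J))) :=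
        Real.rpow_le_rpow (by norm_num) hmJ (by positivity)

lemma explicit (f : ℤ[X]) (p k e D m w : ℕ) (hp : 2 ≤ p) (hk : 1 ≤ k) (hm : 1 ≤ m) (he : 1 ≤ e)
    (hw : w ≤ 2 * e) (hB : ∀ (J : ℕ) (T : ℝ), 1 ≤ J → IsT p k e J T → Bounds f p k D m w J T) :
    Explicit f p k e D m := by
  intro h1 h2 h3 h4
  set n := f.natDegree with hn
  set t := Real.log (n : ℝ) with ht
  have hp2 : (2 : ℝ) ≤ p := by exact_mod_cast hp
  have hk1 : (1 : ℝ) ≤ k := by exact_mod_cast hk
  have hm1 : (1 : ℝ) ≤ m := by exact_mod_cast hm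
  have he1 : (1 : ℝ) ≤ e := by exact_mod_cast he
  have hlp : (69 : ℝ) / 100 ≤ Real.log p := by
    have h5 := Real.log_le_log (by norm_num) hp2
    have h6 := Real.log_two_gt_d9
    linarith
  have hn0 : 0 < n := lt_of_lt_of_le (by positivity) h3
  have hnr : (0 : ℝ) < n := by exact_mod_cast hn0
  have h5 : 32 * k * Real.log p ≤ t := by
    have h6 : ((p : ℝ) ^ (32 * k)) ≤ n := by exact_mod_cast h3
    have h7 := Real.log_le_log (by positivity) h6
    rw [Real.log_pow] at h7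
    push_cast at h7
    exact h7
  have hkl : 0 < 4 * (k : ℝ) * Real.log p := by positivity
  set x := t / (4 * k * Real.log p) with hx
  have hxt : 4 * k * Real.log p * x = t := by
    rw [hx]
    field_simp
  have hx2 : 8 ≤ x := by
    rw [hx, le_div_iff₀ hkl]
    linarith
  have hJ1 : ((⌊x⌋₊ : ℕ) : ℝ) ≤ x := Nat.floor_le (by linarith)
  have hJ2 : x < (⌊x⌋₊ : ℕ) + 1 := Nat.lt_floor_add_one x
  set J := ⌊x⌋₊ with hJ
  have hJ3 : 8 ≤ J := Nat.le_floor (by push_cast; linarith)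
  have hJr : (8 : ℝ) ≤ J := by exact_mod_cast hJ3
  -- the parameter u
  have hkp0 : 0 < (k : ℝ) * Real.log p := by positivity
  have hle0 : 0 ≤ Real.log e := Real.log_nonneg he1
  set y := Real.log e / (k * Real.log p) with hy
  have hyt : k * Real.log p * y = Real.log e := by
    rw [hy]
    field_simp
  have hy0 : 0 ≤ y := by positivity
  have hy4 : y ≤ x / 4 := by
    have h6 : (((e : ℝ)) ^ 16) ≤ n := by
      have h7 : e ^ 16 ≤ n := (Nat.pow_le_pow_left (by omega) 16).trans h2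
      exact_mod_cast h7
    have h7 := Real.log_le_log (by positivity) h6
    rw [Real.log_pow, ← ht, ← hxt, ← hyt] at h7
    push_cast at h7
    have h8 : (16 * (k * Real.log p)) * y ≤ (16 * (k * Real.log p)) * (x / 4) := by
      calc (16 * (k * Real.log p)) * y = 16 * (k * Real.log p * y) := by ring
        _ ≤ 4 * k * Real.log p * x := h7
        _ = _ := by ring
    exact le_of_mul_le_mul_left h8 (by positivity)
  have hu1 : y ≤ (⌈y⌉₊ : ℕ) := Nat.le_ceil y
  have hu2 : ((⌈y⌉₊ : ℕ) : ℝ) < y + 1 := Nat.ceil_lt_add_one hy0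
  set u := ⌈y⌉₊ with hu
  have hu3 : (u : ℝ) ≤ 3 * x / 8 := by linarith
  have huJ : u ≤ J := by
    have h6 : (u : ℝ) ≤ J := by linarith
    exact_mod_cast h6
  have heu : e ≤ p ^ (k * u) := by
    have h6 : Real.log e ≤ Real.log ((p : ℝ) ^ (k * u)) := by
      rw [Real.log_pow, ← hyt]
      push_cast
      have h7 := mul_le_mul_of_nonneg_left hu1 hkp0.le
      calc k * Real.log p * y ≤ k * Real.log p * u := h7
        _ = k * u * Real.log p := by ring
    have h7 := (Real.log_le_log_iff (by positivity) (by positivity)).mp h6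
    exact_mod_cast h7
  obtain ⟨-, h6⟩ := hB J (N k (J - u)) (by omega) (Or.inr ⟨u, huJ, heu, rfl⟩)
  have hkp : (69 : ℝ) / 100 ≤ k * Real.log p := by nlinarith
  have h7 : (J : ℝ) + 1 ≤ t := by
    rw [← hxt]
    nlinarith
  have ht0 : 0 < t := by linarith
  have h8 : Real.log (m * ((J : ℝ) + 1)) ≤ Real.log (m * t) := by
    refine Real.log_le_log (by positivity) ?_
    exact mul_le_mul_of_nonneg_left h7 (by linarith)
  have hlm : 0 ≤ Real.log (m * t) := Real.log_nonneg (by nlinarith)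
  have hv : ((J - u : ℕ) : ℝ) = J - u := Nat.cast_sub huJ
  have hv2 : x / 2 ≤ ((J - u : ℕ) : ℝ) := by
    rw [hv]
    linarith
  set v := J - u with hvdef
  have hv4 : (4 : ℝ) ≤ v := by linarith
  have h9 : 72 * D * Real.log (m * t) ≤ k * Real.log p * x ^ 2 := by
    have h10 : (16 * (k * Real.log p)) * (72 * D * Real.log (m * t)) ≤
        (16 * (k * Real.log p)) * (k * Real.log p * x ^ 2) := by
      calc (16 * (k * Real.log p)) * (72 * D * Real.log (m * t))
          = 1152 * k * D * Real.log p * Real.log (m * t) := by ring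
        _ ≤ t ^ 2 := h4
        _ = _ := by rw [← hxt]; ring
    exact le_of_mul_le_mul_left h10 (by positivity)
  have h11 : k * x ^ 3 / 64 ≤ N k v := by
    have h14 : 3 / 4 * k * (v : ℝ) ≤ k * (v - 1) + 3 := by nlinarith
    have h15 : (v : ℝ) * v * (3 / 4 * k * v) ≤ v * (v + 1) * (k * (v - 1) + 3) := by
      refine mul_le_mul (mul_le_mul_of_nonneg_left (by linarith) (by linarith)) h14 (by positivity)
        (by positivity)
    have h16 : (x / 2) ^ 3 ≤ (v : ℝ) ^ 3 := pow_le_pow_left₀ (by linarith) hv2 3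
    have h17 : (k : ℝ) / 8 * (x / 2) ^ 3 ≤ k / 8 * (v : ℝ) ^ 3 :=
      mul_le_mul_of_nonneg_left h16 (by positivity)
    unfold N
    calc k * x ^ 3 / 64 = (k : ℝ) / 8 * (x / 2) ^ 3 := by ring
      _ ≤ k / 8 * (v : ℝ) ^ 3 := h17
      _ = (v : ℝ) * v * (3 / 4 * k * v) / 6 := by ring
      _ ≤ _ := by linarith
  have h16 : D * (((J : ℝ) + 1) * Real.log (m * ((J : ℝ) + 1))) ≤ N k v * Real.log p := by
    have h17 : ((J : ℝ) + 1) * Real.log (m * ((J : ℝ) + 1)) ≤ (9 / 8 * x) * Real.log (m * t) := by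
      refine (mul_le_mul_of_nonneg_left h8 (by linarith)).trans ?_
      exact mul_le_mul_of_nonneg_right (by linarith) hlm
    calc D * (((J : ℝ) + 1) * Real.log (m * ((J : ℝ) + 1)))
        ≤ D * ((9 / 8 * x) * Real.log (m * t)) := mul_le_mul_of_nonneg_left h17 (by positivity)
      _ = x / 64 * (72 * D * Real.log (m * t)) := by ring
      _ ≤ x / 64 * (k * Real.log p * x ^ 2) := mul_le_mul_of_nonneg_left h9 (by linarith)
      _ = k * x ^ 3 / 64 * Real.log p := by ring
      _ ≤ _ := mul_le_mul_of_nonneg_right h11 (by linarith)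
  refine (h6 h16).2 ?_
  have h17 : (p ^ (k * J)) ^ 4 ≤ n := by
    have h18 : Real.log (((p : ℝ) ^ (k * J)) ^ 4) ≤ Real.log n := by
      rw [Real.log_pow, Real.log_pow, ← ht, ← hxt]
      push_cast
      have h19 : k * Real.log p * J ≤ k * Real.log p * x :=
        mul_le_mul_of_nonneg_left hJ1 (by linarith)
      linarith
    have h19 := (Real.log_le_log_iff (by positivity) hnr).mp h18
    exact_mod_cast h19
  have h2' : (2 * e) ^ 4 ≤ n := (Nat.pow_le_pow_right (by omega) (by norm_num)).trans h2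
  have h20 : (w * m * p ^ (k * J)) ^ 4 ≤ n ^ 4 := by
    calc (w * m * p ^ (k * J)) ^ 4 = w ^ 4 * (m ^ 2 * m ^ 2) * (p ^ (k * J)) ^ 4 := by ring
      _ ≤ (2 * e) ^ 4 * (n * n) * n := by gcongr
      _ ≤ n * (n * n) * n := by gcongr
      _ = n ^ 4 := by ring
  exact (Nat.pow_le_pow_iff_left (by norm_num)).mp h20

/-- automorphisms over `E` permute the conjugates over `E` -/
lemma conj_zero {K E : IntermediateField ℚ ℂ} (h : E ≤ K) (g : K ≃ₐ[ℚ] K)
    (hg : ∀ y : E, ((g ⟨y, h y.2⟩ : K) : ℂ) = (y : ℂ)) (x : K) :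
    aeval ((g x : K) : ℂ) (minpoly E (x : ℂ)) = 0 := by
  set F := minpoly E (x : ℂ) with hF
  set i : E →+* K := (IntermediateField.inclusion h).toRingHom with hi
  have h0 : aeval (x : ℂ) F = 0 := minpoly.aeval E (x : ℂ)
  have hc : (algebraMap K ℂ).comp i = algebraMap E ℂ := by
    ext y
    rfl
  have h1 : ∀ z : K, aeval (z : ℂ) F = algebraMap K ℂ (eval₂ i z F) := by
    intro z
    rw [hom_eval₂, hc, aeval_def]
    rfl
  have h2 : eval₂ i x F = 0 := by
    have h3 := h1 x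
    rw [h0] at h3
    exact (map_eq_zero_iff _ (algebraMap K ℂ).injective).mp h3.symm
  have h4 : ((g : K ≃+* K) : K →+* K).comp i = i := by
    ext y
    exact hg y
  have h5 := congrArg ((g : K ≃+* K) : K →+* K) h2
  rw [hom_eval₂, h4, map_zero] at h5
  rw [h1 (g x)]
  have h6 : eval₂ i (g x) F = 0 := h5
  rw [h6, map_zero]

lemma monic_case (f : ℤ[X]) (hf : Irreducible f) (hm : f.Monic) (hM : 1 < M f)
    (K : IntermediateField ℚ ℂ) [FiniteDimensional ℚ K] [IsGalois ℚ K] (α : ℂ) (hαK : α ∈ K)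
    (hα : aeval α f = 0) (E : IntermediateField ℚ ℂ) [FiniteDimensional ℚ E] [IsGalois ℚ E]
    (hEK : E ≤ K) (p : ℕ) (hp : p.Prime) (P : Ideal (𝓞 K)) (hP : P.IsPrime)
    (hpP : (p : 𝓞 K) ∈ P) (e : ℕ) (hpe : (p : 𝓞 K) ∈ P ^ e) (he : (p : 𝓞 K) ∉ P ^ (e + 1)) (w : ℕ)
    (hw : w = 2 * e ∨ (w = 1 ∧ NoRatio p E α)) (k : ℕ) (hk : 1 ≤ k)
    (τ : K ≃ₐ[ℚ] K) (hτ : IsFrobPow p P k τ) (τE : E ≃ₐ[ℚ] E)
    (hτE : ∀ y : E, ((τ ⟨y, hEK y.2⟩ : K) : ℂ) = (τE y : ℂ)) (J : ℕ) (T : ℝ) (hJ : 1 ≤ J)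
    (hT : IsT p k e J T) :
    Bounds f p k (classNum τE) (minpoly E α).natDegree w J T := by
  classical
  have hαi : IsIntegral ℤ α := ⟨f, hm, by rw [← Polynomial.aeval_def]; exact hα⟩
  have hmin : minpoly ℤ α = f := by
    have h1 := minpoly.isIntegrallyClosed_dvd hαi hα
    have h2 : Associated (minpoly ℤ α) f :=
      (minpoly.irreducible hαi).associated_of_dvd hf h1
    exact eq_of_monic_of_associated (minpoly.monic hαi) hm h2
  set x : K := ⟨α, hαK⟩ with hxdef
  have h1 : minpoly ℤ x = f := by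
    rw [← hmin]
    exact (minpoly.algebraMap_eq (algebraMap K ℂ).injective x).symm
  have h2 : IsIntegral ℤ x := by
    refine (isIntegral_algebraMap_iff (algebraMap K ℂ).injective).mp ?_
    exact hαi
  obtain ⟨π, hs, hπ⟩ := Pool.Agent.J6H8.FC.exists_restr hEK
  have hπτ : π τ = τE := by
    ext y
    rw [← hπ τ y, hτE y]
  have he1 : 1 ≤ e := by
    rcases Nat.eq_zero_or_pos e with h0 | h0
    · exfalso
      apply he
      rw [h0, zero_add, pow_one]
      exact hpP
    · exact h0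
  obtain ⟨s, hsw, hr'⟩ : ∃ s : ℕ, p ^ s ≤ w ∧ ∀ h ∈ π.ker, ∀ r : ℕ,
      (h x) ^ (p ^ r) = x ^ (p ^ r) → (h x) ^ (p ^ s) = x ^ (p ^ s) := by
    rcases hw with hw | ⟨hw, hr⟩
    · refine ⟨Nat.log p (2 * e), ?_, fun h _ r hrr =>
        Pool.Agent.J6H8.FR.unit_pow hp P hpP he x (h x) r hrr⟩
      rw [hw]
      exact Nat.pow_log_le_self p (by omega)
    · refine ⟨0, by rw [pow_zero, hw], ?_⟩
      intro h hh r hrr
      have h3 := conj_zero hEK h (fun y => by
        rw [hπ h y, (MonoidHom.mem_ker).mp hh]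
        rfl) x
      have h4 := congrArg (fun z : K => (z : ℂ)) hrr
      simp only [IntermediateField.coe_pow] at h4
      have h5 : h x = x := Subtype.ext (hr _ r h3 h4)
      rw [h5]
  have hw1 : 1 ≤ w := (Nat.one_le_pow _ _ hp.pos).trans hsw
  have : Finite (MulAction.orbit π.ker x) := (Set.finite_range _).to_subtype
  have := Fintype.ofFinite (MulAction.orbit π.ker x)
  have hE : IsIntegral E α := by
    have h5 : IsIntegral ℚ α := hαi.tower_top
    exact h5.tower_top
  have hm0 : 0 < (minpoly E α).natDegree := minpoly.natDegree_pos hE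
  have hcard : Fintype.card (MulAction.orbit π.ker x) = (minpoly E α).natDegree := by
    have h5 := MulAction.card_orbit_mul_card_stabilizer_eq_card_group π.ker x
    have h6 := Pool.Agent.J6H8.FC.stab_ker hEK π hπ x
    have h7 : Fintype.card (MulAction.stabilizer π.ker x) =
        (Finset.univ.filter fun g : π.ker => (g : K ≃ₐ[ℚ] K) x = x).card := by
      refine Fintype.card_of_subtype _ fun g => ?_
      rw [Finset.mem_filter, MulAction.mem_stabilizer_iff]
      exact ⟨fun h => h.2, fun h => ⟨Finset.mem_univ _, h⟩⟩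
    rw [h7, ← h6, mul_comm] at h5
    have h8 : 0 < (Finset.univ.filter fun g : π.ker => (g : K ≃ₐ[ℚ] K) x = x).card :=
      Finset.card_pos.mpr ⟨1, by simp⟩
    exact Nat.eq_of_mul_eq_mul_left h8 h5
  have hD1 : 1 ≤ classNum τE := by
    have : Nonempty {ρ : E ≃ₐ[ℚ] E // IsConj τE ρ} := ⟨⟨τE, IsConj.refl τE⟩⟩
    exact Nat.card_pos
  refine derive f hM p k (classNum τE) _ w J T hp.two_le hk hD1 hm0 hw1 hJ ?_
  have h4 : ∑ i ∈ range (J + 1), (p : ℝ) ^ (k * i) =
      ∑ i ∈ range (J + 1), ((p : ℝ) ^ k) ^ (J - i) := by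
    have h5 := Finset.sum_range_reflect (fun i => ((p : ℝ) ^ k) ^ i) (J + 1)
    simp only [Nat.add_sub_cancel] at h5
    rw [h5]
    refine Finset.sum_congr rfl fun i _ => ?_
    rw [pow_mul]
  rw [h4]
  set Q := ∑ i ∈ range (J + 1), ((p : ℝ) ^ k) ^ (J - i) with hQ
  have hQ0 : 0 ≤ Q := Finset.sum_nonneg fun i _ => by positivity
  have hsw' : (p : ℝ) ^ s ≤ w := by exact_mod_cast hsw
  have hmr : (1 : ℝ) ≤ (minpoly E α).natDegree := by exact_mod_cast hm0
  have hb0 : 0 ≤ Real.log (M f) := (Real.log_pos hM).le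
  have hmJ : 0 ≤ ((minpoly E α).natDegree : ℝ) * (J + 1) - 1 := by
    have hJ0 : (0 : ℝ) ≤ J := Nat.cast_nonneg J
    nlinarith
  have h5 : (p : ℝ) ^ s * ((minpoly E α).natDegree * (J + 1) - 1) * Q * Real.log (M f) ≤
      w * ((minpoly E α).natDegree * (J + 1) - 1) * Q * Real.log (M f) := by
    gcongr
  have her : (0 : ℝ) < e := by exact_mod_cast he1
  -- general exponents
  have key : ∀ (F : ℕ → ℕ) (T₀ : ℝ),
      (∀ x y : 𝓞 K, x - y ∈ P → ∀ r, x ^ (p ^ r) - y ^ (p ^ r) ∈ P ^ (F r)) →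
      e * T₀ ≤ (Pool.Agent.J6H8.FR.TE (fun j => F (k * (J - j))) J : ℝ) →
      T₀ * (f.natDegree * Real.log p) ≤ classNum τE * (f.natDegree * ((J + 1) / 2 *
        Real.log ((minpoly E α).natDegree * (J + 1))) +
        w * ((minpoly E α).natDegree * (J + 1) - 1) * Q * Real.log (M f)) := by
    intro F T₀ hF hT₀
    have h3 := Pool.Agent.J6H8.FR.mainEW π hp P hpP he hk hF τ hτ J h2 (by rw [h1]; exact hM) hs
      hcard s hr'
    rw [h1, hπτ] at h3
    have hlp : 0 ≤ Real.log p := Real.log_natCast_nonneg p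
    have h7 : e * (T₀ * (f.natDegree * Real.log p)) ≤ e * (classNum τE * (f.natDegree *
        ((J + 1) / 2 * Real.log ((minpoly E α).natDegree * (J + 1))) +
        w * ((minpoly E α).natDegree * (J + 1) - 1) * Q * Real.log (M f))) := by
      calc e * (T₀ * (f.natDegree * Real.log p)) = (e * T₀) * (f.natDegree * Real.log p) := by ring
        _ ≤ (Pool.Agent.J6H8.FR.TE (fun j => F (k * (J - j))) J : ℝ) *
            (f.natDegree * Real.log p) := mul_le_mul_of_nonneg_right hT₀ (by positivity)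
        _ = (Pool.Agent.J6H8.FR.TE (fun j => F (k * (J - j))) J : ℝ) *
            f.natDegree * Real.log p := by ring
        _ ≤ _ := h3
        _ = e * (classNum τE * (f.natDegree *
            ((J + 1) / 2 * Real.log ((minpoly E α).natDegree * (J + 1))) +
            (p : ℝ) ^ s * ((minpoly E α).natDegree * (J + 1) - 1) * Q * Real.log (M f))) := by
          unfold classNum M
          ring
        _ ≤ _ := by
          refine mul_le_mul_of_nonneg_left (mul_le_mul_of_nonneg_left ?_ (by positivity)) her.le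
          linarith
    exact le_of_mul_le_mul_left h7 her
  rcases hT with hT | ⟨u, huJ, heu, hT⟩
  · refine key (fun r => r + 1) T
      (fun x y h r => Pool.Agent.J6H8.FR.pow_pow_mem hp hpP h r) ?_
    have h6 : Pool.Agent.J6H8.FR.TE (fun j => k * (J - j) + 1) J =
        Pool.Agent.J6H8.FR.T k J := rfl
    rw [h6, Pool.Agent.J6H8.FR.T_real, hT]
    unfold N
    rw [mul_div_cancel₀ _ her.ne']
  · refine key (fun r => e * (r + 1 - k * u)) T
      (fun x y h r => Pool.Agent.J6H8.FR.pow_pow_ram hp hpe heu h r) ?_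
    have h6 := Pool.Agent.J6H8.FR.TE_ram e k J u huJ
    have h7 : ((e * Pool.Agent.J6H8.FR.T k (J - u) : ℕ) : ℝ) ≤
        (Pool.Agent.J6H8.FR.TE (fun j => e * (k * (J - j) + 1 - k * u)) J : ℝ) := by
      exact_mod_cast h6
    refine le_trans (le_of_eq ?_) h7
    rw [Nat.cast_mul, Pool.Agent.J6H8.FR.T_real, hT]
    rfl

/-- **Lehmer's problem when a Frobenius element has few conjugates.** -/
theorem result (f : ℤ[X]) (hf : Irreducible f) (hM : 1 < M f)
    (K : IntermediateField ℚ ℂ) [FiniteDimensional ℚ K] [IsGalois ℚ K] (α : ℂ) (hαK : α ∈ K)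
    (hα : aeval α f = 0) (E : IntermediateField ℚ ℂ) [FiniteDimensional ℚ E] [IsGalois ℚ E]
    (hEK : E ≤ K) (p : ℕ) (hp : p.Prime) (P : Ideal (𝓞 K)) (hP : P.IsPrime)
    (hpP : (p : 𝓞 K) ∈ P) (e : ℕ) (hpe : (p : 𝓞 K) ∈ P ^ e) (he : (p : 𝓞 K) ∉ P ^ (e + 1)) (w : ℕ)
    (hw : w = 2 * e ∨ (w = 1 ∧ NoRatio p E α)) (k : ℕ) (hk : 1 ≤ k)
    (τ : K ≃ₐ[ℚ] K) (hτ : IsFrobPow p P k τ) (τE : E ≃ₐ[ℚ] E)
    (hτE : ∀ y : E, ((τ ⟨y, hEK y.2⟩ : K) : ℂ) = (τE y : ℂ)) :
    2 ≤ |f.leadingCoeff| ∨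
      ((∀ (J : ℕ) (T : ℝ), 1 ≤ J → IsT p k e J T →
          Bounds f p k (classNum τE) (minpoly E α).natDegree w J T) ∧
        Explicit f p k e (classNum τE) (minpoly E α).natDegree) := by
  have he1 : 1 ≤ e := by
    rcases Nat.eq_zero_or_pos e with h0 | h0
    · exfalso
      apply he
      rw [h0, zero_add, pow_one]
      exact hpP
    · exact h0
  have hw2 : w ≤ 2 * e := by
    rcases hw with h | ⟨h, -⟩ <;> omega
  have hQ : IsIntegral ℚ α :=
    (isIntegral_algebraMap_iff (algebraMap K ℂ).injective).mpr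
      (Algebra.IsIntegral.isIntegral (R := ℚ) (⟨α, hαK⟩ : K))
  have hE : IsIntegral E α := hQ.tower_top
  have hm0 : 0 < (minpoly E α).natDegree := minpoly.natDegree_pos hE
  suffices h : 2 ≤ |f.leadingCoeff| ∨
      ∀ (J : ℕ) (T : ℝ), 1 ≤ J → IsT p k e J T →
        Bounds f p k (classNum τE) (minpoly E α).natDegree w J T from
    h.imp_right fun h => ⟨h, explicit f p k e _ _ w hp.two_le hk hm0 he1 hw2 h⟩
  have hl0 : f.leadingCoeff ≠ 0 := leadingCoeff_ne_zero.mpr hf.ne_zero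
  have habs := Int.one_le_abs hl0
  rcases lt_or_eq_of_le habs with h1 | h1
  · left; omega
  right
  rcases (abs_eq (zero_le_one' ℤ)).mp h1.symm with h2 | h2
  · exact fun J T hJ hT =>
      monic_case f hf h2 hM K α hαK hα E hEK p hp P hP hpP e hpe he w hw k hk τ hτ τE hτE J T hJ hT
  · intro J T hJ hT
    have hMneg : M (-f) = M f := Pool.Agent.H389R3.LR.MM_neg' f
    have h3 := monic_case (-f)
      ((Associated.irreducible_iff (Associated.neg_left (Associated.refl f))).mpr hf)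
      (by rw [Monic, leadingCoeff_neg, h2]; rfl) (by rw [hMneg]; exact hM) K α hαK
      (by rw [map_neg, hα, neg_zero]) E hEK p hp P hP hpP e hpe he w hw k hk τ hτ τE hτE J T hJ hT
    unfold Bounds at h3 ⊢
    rw [hMneg, natDegree_neg] at h3
    exact h3

end Pool.Agent.Results.MP_dc0c68_nt.SmallFrobeniusClasses
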