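import Mathlib
import Pool.Agent.J6H31.AR.Fin

/-!
# Lehmer's problem for polynomials with many zeros near the zeros of a polynomial with few terms

For all `N` and `θ > 0` there are `ε > 0` and `c > 0`, depending only on `N` and `θ`, with the
following property. Let `f` be an integer polynomial none of whose zeros is `0` or a root of unity,
and let `T` be a complex polynomial with at most `N` nonzero coefficients, one of which has
modulus at least one. If `|T(α)| ≤ ε` for at least `θ deg f` of the zeros `α` of `f` (with
multiplicity), then `log M(f) ≥ c * deg f / deg T`.

For instance, with `T = X ^ n - 1`: if `|α ^ n - 1| ≤ ε` for at least `θ deg f` zeros `α` of `f`,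
where `n ≤ C deg f`, then `M(f) ≥ exp (c / C) > 1`; so Lehmer's inequality holds, with a constant
which depends on the proportion `θ` only, for all `f` with a positive proportion of zeros at
distance at most `ε / (2 n)` from the `n`-th roots of unity, `n = deg f`. Equidistribution of the zeros
of polynomials with small Mahler measure says nothing on this scale.

Method: let `E` be the set of the exponents of `T`. The number of the sums of `n` elements of `E`
grows at most like a power of `n`, so there is a finite set `S` of such sums for which `S' = S + E`
is not much larger. The multiples `T * B` with `B` supported in `S` are a subspace of small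
codimension of the polynomials supported in `S'`, so by the pigeonhole principle there is a nonzero
integer polynomial `G` supported in `S'` with bounded coefficients and very close to such a multiple
`T * B`. The coefficients of `B` are bounded since exponential sums with few terms are not small
outside a small set. Hence `G` is very small at the zeros of `f` at which `T` is small. If `f` is
irreducible and does not divide `G` then the resultant of `f` and `G` gives the bound; if `f`
divides `G` then `f` divides a polynomial with boundedly many terms, and one uses the lower
bound for the Mahler measure in terms of the number of monomials (starting file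
`MP_7ab245_nt/FewMonomials`).
-/

set_option autoImplicit false

open Polynomial

namespace Pool.Agent.Results.MP_dc0c68_nt.ZerosNearFewTerms

/-- The Mahler measure of an integer polynomial. -/
noncomputable def M (f : ℤ[X]) : ℝ := (f.map (Int.castRingHom ℂ)).mahlerMeasure

open Classical in
/-- **Integer polynomials with many zeros at which a polynomial with few terms is small.** -/
theorem result (N : ℕ) (θ : ℝ) (hθ : 0 < θ) :
    ∃ ε c : ℝ, 0 < ε ∧ 0 < c ∧ ∀ (f : ℤ[X]) (T : ℂ[X]),
      (∀ z : ℂ, aeval z f = 0 → z ≠ 0 ∧ ∀ n : ℕ, 0 < n → z ^ n ≠ 1) →
      T.support.card ≤ N → (∃ i, 1 ≤ ‖T.coeff i‖) →
      θ * f.natDegree ≤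
        (f.map (Int.castRingHom ℂ)).roots.countP (fun z => ‖T.eval z‖ ≤ ε) →
      c * f.natDegree ≤ T.natDegree * Real.log (M f) := by
  obtain ⟨ε, c, hε, hc, h⟩ := Pool.Agent.J6H31.AR.main N θ hθ
  exact ⟨ε, c, hε, hc, fun f T hf hT hT1 hθ => h f T hf hT hT1 hθ⟩

end Pool.Agent.Results.MP_dc0c68_nt.ZerosNearFewTerms
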